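import Mathlib

/-!
# Finitary van der Waerden theorem and chains

`chain`: in every finite colouring of the integers there are `X 0 < X 1 < ... < X (n-1)` such
that, for `i < j`, the numbers `X j + c * X i` with `|c| ≤ N` have the colour of `X j`, all the
`X j` have the same colour, and `X i` is divisible by `P * D` where `D ∣ X j` and
`X j ≡ D` modulo `P * D`.
-/

namespace Pool.Agent.Work.MP_0f91f8_co.H23

open Finset

/-- Van der Waerden's theorem with a bound which depends only on the colours and the length. -/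
theorem vdw_fin (κ : Type) [Finite κ] (K : ℕ) : ∃ W : ℕ, ∀ C : ℕ → κ, ∃ α δ : ℕ,
    1 ≤ δ ∧ δ ≤ W ∧ α ≤ W ∧ ∀ t ≤ K, C (α + t * δ) = C α := by
  classical
  obtain ⟨ι, _inst, hι⟩ :=
    Combinatorics.Line.exists_mono_in_high_dimension (Fin (K + 1)) κ
  refine ⟨Fintype.card ι * (K + 1), fun C => ?_⟩
  obtain ⟨l, c, hl⟩ := hι fun v => C (∑ i, (v i : ℕ))
  set s : Finset ι := {i | l.idxFun i = none} with hs
  have hsum : ∀ x : Fin (K + 1), ∑ i, ((l x i : Fin (K + 1)) : ℕ) =
      (∑ i ∈ sᶜ, (((l.idxFun i).getD 0 : Fin (K + 1)) : ℕ)) + x * #s := by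
    intro x
    rw [← Finset.sum_add_sum_compl s, add_comm]
    congr 1
    · refine Finset.sum_congr rfl fun i hi => ?_
      rw [hs, Finset.compl_filter, Finset.mem_filter] at hi
      obtain ⟨y, hy⟩ := Option.ne_none_iff_exists.mp hi.right
      have : l x i = y := by
        rw [Combinatorics.Line.apply_def]
        simp only [← hy]
        rfl
      rw [this, ← hy]; rfl
    · rw [Finset.sum_congr rfl (g := fun _ => (x : ℕ)), Finset.sum_const, smul_eq_mul, mul_comm]
      intro i hi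
      rw [hs, Finset.mem_filter] at hi
      rw [l.apply_none _ _ hi.right]
  refine ⟨∑ i ∈ sᶜ, (((l.idxFun i).getD 0 : Fin (K + 1)) : ℕ), #s, ?_, ?_, ?_, ?_⟩
  · refine Finset.card_pos.mpr ⟨l.proper.choose, ?_⟩
    rw [hs, Finset.mem_filter]
    exact ⟨Finset.mem_univ _, l.proper.choose_spec⟩
  · calc #s ≤ Fintype.card ι := Finset.card_le_univ _
      _ ≤ Fintype.card ι * (K + 1) := Nat.le_mul_of_pos_right _ (Nat.succ_pos _)
  · calc ∑ i ∈ sᶜ, (((l.idxFun i).getD 0 : Fin (K + 1)) : ℕ) ≤ ∑ i ∈ sᶜ, (K + 1) :=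
          Finset.sum_le_sum fun i _ => (Fin.is_lt _).le
      _ = #sᶜ * (K + 1) := by rw [Finset.sum_const, smul_eq_mul]
      _ ≤ Fintype.card ι * (K + 1) := Nat.mul_le_mul_right _ (Finset.card_le_univ _)
  · intro t ht
    have h1 := hl (⟨t, Nat.lt_succ_of_le ht⟩ : Fin (K + 1))
    have h2 := hl (⟨0, Nat.succ_pos K⟩ : Fin (K + 1))
    simp only [hsum] at h1 h2
    rw [zero_mul, add_zero] at h2
    rw [h1, h2]

/-- `Above χ N P a x`: the element `a` is in structured position with respect to `x`. -/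
def Above {κ : Type} (χ : ℤ → κ) (N P : ℕ) (a x : ℤ) : Prop :=
  (∃ D : ℤ, 0 < D ∧ D ∣ a ∧ (P : ℤ) * D ∣ a - D ∧ (P : ℤ) * D ∣ x) ∧
  ∀ c : ℤ, |c| ≤ N → 0 < a + c * x ∧ χ (a + c * x) = χ a

theorem chain_aux (κ : Type) [Finite κ] (N P : ℕ) (hP : 1 ≤ P) (L : ℕ) :
    ∃ B : ℕ, ∀ (χ : ℤ → κ) (D : ℤ), 0 < D →
      ∃ l : List ℤ, l.length = L ∧ (∀ a ∈ l, 0 < a ∧ D ∣ a ∧ a ≤ D * B) ∧
        l.Pairwise (Above χ N P) := by
  induction L with
  | zero =>
    refine ⟨0, fun χ D _ => ⟨[], rfl, ?_, List.Pairwise.nil⟩⟩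
    intro a ha
    simp at ha
  | succ L ih =>
    obtain ⟨B, hB⟩ := ih
    obtain ⟨W, hW⟩ := vdw_fin κ (2 * (N * B))
    refine ⟨1 + P * (W + N * B * W) + P * W * B, fun χ D hD => ?_⟩
    obtain ⟨α, δ, hδ, hδW, hαW, hmono⟩ := hW fun u => χ (D * (1 + P * (u : ℤ)))
    have hPδ : 0 < D * (P * δ : ℤ) := by positivity
    obtain ⟨l, hlen, hl, hpw⟩ := hB χ (D * (P * δ : ℤ)) hPδ
    set a : ℤ := D * (1 + P * ((α : ℤ) + (N * B : ℤ) * δ)) with ha
    have ha0 : 0 < a := by rw [ha]; positivity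
    refine ⟨a :: l, by simp [hlen], ?_, ?_⟩
    · intro x hx
      rcases List.mem_cons.1 hx with rfl | hx
      · refine ⟨ha0, Dvd.intro _ rfl, ?_⟩
        rw [ha]
        refine mul_le_mul_of_nonneg_left ?_ hD.le
        push_cast
        have h1 : (α : ℤ) ≤ W := by exact_mod_cast hαW
        have h2 : (δ : ℤ) ≤ W := by exact_mod_cast hδW
        have h3 : (N * B : ℤ) * δ ≤ N * B * W := mul_le_mul_of_nonneg_left h2 (by positivity)
        have h4 : (P : ℤ) * ((α : ℤ) + (N * B : ℤ) * δ) ≤ P * (W + N * B * W) :=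
          mul_le_mul_of_nonneg_left (add_le_add h1 h3) (by positivity)
        have h5 : (0 : ℤ) ≤ P * W * B := by positivity
        linarith
      · obtain ⟨h1, h2, h3⟩ := hl x hx
        refine ⟨h1, (Dvd.intro _ rfl).trans h2, h3.trans ?_⟩
        rw [mul_assoc]
        refine mul_le_mul_of_nonneg_left ?_ hD.le
        push_cast
        have h2 : (δ : ℤ) ≤ W := by exact_mod_cast hδW
        have h3 : (P : ℤ) * δ * B ≤ P * W * B :=
          mul_le_mul_of_nonneg_right (mul_le_mul_of_nonneg_left h2 (by positivity))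
            (by positivity)
        have h5 : (0 : ℤ) ≤ P * (W + N * B * W) := by positivity
        linarith
    · refine List.Pairwise.cons ?_ hpw
      intro x hx
      obtain ⟨h1, ⟨x', h2⟩, h3⟩ := hl x hx
      refine ⟨⟨D, hD, Dvd.intro _ rfl, ?_, ?_⟩, ?_⟩
      · refine ⟨(α : ℤ) + (N * B : ℤ) * δ, ?_⟩
        rw [ha]; ring
      · rw [h2]; exact ⟨δ * x', by ring⟩
      · intro c hc
        have hx'0 : 0 < x' := by
          rw [h2] at h1
          exact (mul_pos_iff_of_pos_left hPδ).1 h1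
        have hx'B : x' ≤ B := by
          rw [h2] at h3
          exact le_of_mul_le_mul_left h3 hPδ
        have hcx : |c * x'| ≤ N * B := by
          rw [abs_mul, abs_of_pos hx'0]
          exact mul_le_mul hc hx'B hx'0.le (by positivity)
        obtain ⟨hc1, hc2⟩ := abs_le.1 hcx
        have ht0 : 0 ≤ (N * B : ℤ) + c * x' := by linarith
        obtain ⟨t, ht⟩ := Int.eq_ofNat_of_zero_le ht0
        have htK : t ≤ 2 * (N * B) := by
          have : (t : ℤ) ≤ 2 * (N * B) := by rw [← ht]; linarith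
          exact_mod_cast this
        have hm1 := hmono t htK
        have hm2 := hmono (N * B) (by omega)
        have e1 : a + c * x = D * (1 + P * ((α + t * δ : ℕ) : ℤ)) := by
          push_cast
          rw [← ht, ha, h2]; ring
        have e2 : a = D * (1 + P * ((α + (N * B) * δ : ℕ) : ℤ)) := by
          push_cast
          rw [ha]
        refine ⟨?_, ?_⟩
        · rw [e1]; positivity
        · rw [e1, hm1]
          conv_rhs => rw [e2]
          rw [hm2]

/-- Chains in a finite colouring of the integers. -/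
theorem chain {κ : Type} [Finite κ] (χ : ℤ → κ) (N P n : ℕ) (hP : 1 ≤ P) :
    ∃ X : Fin n → ℤ, (∀ i, 0 < X i) ∧ (∀ i j, i < j → Above χ N P (X j) (X i)) ∧
      ∀ i j, χ (X i) = χ (X j) := by
  classical
  cases nonempty_fintype κ
  obtain ⟨B, hB⟩ := chain_aux κ N P hP (Fintype.card κ * n)
  obtain ⟨l, hlen, hl, hpw⟩ := hB χ 1 one_pos
  rcases isEmpty_or_nonempty κ with hκ | hκ
  · exact (IsEmpty.false (χ 0)).elim
  have hcard : Fintype.card κ * n ≤ Fintype.card (Fin l.length) := by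
    rw [Fintype.card_fin, hlen]
  obtain ⟨y, hy⟩ := Fintype.exists_le_card_fiber_of_mul_le_card
    (fun i : Fin l.length => χ (l.get i)) hcard
  let e := Finset.orderEmbOfCardLe _ hy
  have he : ∀ k, χ (l.get (e k)) = y := by
    intro k
    have := Finset.orderEmbOfCardLe_mem _ hy k
    exact (Finset.mem_filter.1 this).2
  refine ⟨fun i => l.get (e (Fin.rev i)), ?_, ?_, ?_⟩
  · intro i
    exact (hl _ (List.get_mem l _)).1
  · intro i j hij
    have h1 : e (Fin.rev j) < e (Fin.rev i) := e.strictMono (Fin.rev_lt_rev.2 hij)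
    exact List.pairwise_iff_get.1 hpw _ _ h1
  · intro i j
    simp only [he]

end Pool.Agent.Work.MP_0f91f8_co.H23
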