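import Mathlib

/-!
# Structured pairs and their Gaussian products
-/

namespace Pool.Agent.Work.MP_0f91f8_co.H23

open Topology Pointwise

section Gauge

variable {H : Type} [CommGroup H]

theorem mem_pow_inv {V : Set H} (hV : V⁻¹ = V) {t : ℕ} {a : H} (ha : a ∈ V ^ t) :
    a⁻¹ ∈ V ^ t := by
  have : (V ^ t)⁻¹ = V ^ t := by rw [← inv_pow, hV]
  rw [← this]
  exact Set.inv_mem_inv.2 ha

theorem mem_pow_mul {V : Set H} {s t : ℕ} {a b : H} (ha : a ∈ V ^ s) (hb : b ∈ V ^ t) :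
    a * b ∈ V ^ (s + t) := by
  rw [pow_add]
  exact Set.mul_mem_mul ha hb

theorem mem_pow_mono {V : Set H} (hV : (1 : H) ∈ V) {s t : ℕ} (hst : s ≤ t) {a : H}
    (ha : a ∈ V ^ s) : a ∈ V ^ t :=
  Set.pow_subset_pow_right hV hst ha

theorem exists_symm_pow_subset [TopologicalSpace H] [IsTopologicalGroup H] {U : Set H}
    (hU : U ∈ 𝓝 (1 : H)) (K : ℕ) : ∃ V ∈ 𝓝 (1 : H), V⁻¹ = V ∧ V ^ K ⊆ U := by
  have key : ∀ K : ℕ, ∀ U ∈ 𝓝 (1 : H), ∃ V ∈ 𝓝 (1 : H), V ^ K ⊆ U := by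
    intro K
    induction K with
    | zero =>
      intro U hU
      refine ⟨U, hU, ?_⟩
      rw [pow_zero]
      intro x hx
      rw [Set.mem_one.1 hx]
      exact mem_of_mem_nhds hU
    | succ K ih =>
      intro U hU
      obtain ⟨V1, hV1, hV1o⟩ := exists_nhds_one_split hU
      obtain ⟨V2, hV2, hV2K⟩ := ih V1 hV1
      refine ⟨V1 ∩ V2, Filter.inter_mem hV1 hV2, ?_⟩
      rw [pow_succ]
      rintro x ⟨y, hy, z, hz, rfl⟩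
      have hy' : y ∈ V1 := hV2K (Set.pow_subset_pow_left Set.inter_subset_right hy)
      have h1 : (1 : H) ∈ V1 := mem_of_mem_nhds hV1
      exact hV1o y hy' z hz.1
  obtain ⟨V, hV, hVK⟩ := key K U hU
  refine ⟨V ∩ V⁻¹, Filter.inter_mem hV (inv_mem_nhds_one H hV), ?_, ?_⟩
  · rw [Set.inter_inv, inv_inv, Set.inter_comm]
  · exact (Set.pow_subset_pow_left Set.inter_subset_left).trans hVK

end Gauge

section St

variable {H : Type} [CommGroup H]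

/-- The pair `(q, p)` is structured up to `V ^ t` for the multiplicative function `Φ`. -/
structure St (Φ : ℤ → H) (V : Set H) (t : ℕ) (M q p : ℤ) (ρ ν : H) : Prop where
  q_pos : 0 < q
  p_pos : 0 < p
  lin : ∀ a b : ℤ, 1 ≤ a → a ≤ M → |b| ≤ M →
    0 < a * q + b * p ∧ Φ (a * q + b * p) * (Φ a * Φ q)⁻¹ ∈ V ^ t
  rat : Φ p * (Φ q * ρ)⁻¹ ∈ V ^ t
  nrm : Φ (q ^ 2 + p ^ 2) * (Φ q ^ 2 * ν)⁻¹ ∈ V ^ t

theorem St.mul {Φ : ℤ → H} (hΦ : ∀ a b : ℤ, a ≠ 0 → b ≠ 0 → Φ (a * b) = Φ a * Φ b)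
    {V : Set H} (h1V : (1 : H) ∈ V) (hV : V⁻¹ = V) {t1 t2 : ℕ} {M M2 q1 p1 q2 p2 : ℤ}
    {ρ1 ν1 ρ2 ν2 : H} (hM : 1 ≤ M) (h1 : St Φ V t1 M q1 p1 ρ1 ν1)
    (h2 : St Φ V t2 M2 q2 p2 ρ2 ν2) (hM2 : M * (q1 + p1) ≤ M2) :
    St Φ V (t1 + 3 * t2) M (q1 * q2 - p1 * p2) (p1 * q2 + q1 * p2) ρ1 (ν1 * ν2) := by
  have hq1 := h1.q_pos
  have hp1 := h1.p_pos
  have hq2 := h2.q_pos
  have hp2 := h2.p_pos
  have hsum : q1 + p1 ≤ M2 := by nlinarith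
  have hone : Φ 1 = 1 := by
    have := hΦ 1 1 one_ne_zero one_ne_zero
    rw [mul_one] at this
    exact mul_eq_left.1 this.symm
  -- the new real part
  obtain ⟨hQ0, hQ⟩ := h2.lin q1 (-p1) (by omega) (by omega)
    (by rw [abs_neg, abs_of_pos hp1]; omega)
  have eQ : q1 * q2 + -p1 * p2 = q1 * q2 - p1 * p2 := by ring
  rw [eQ] at hQ0 hQ
  obtain ⟨hP0, hP⟩ := h2.lin p1 q1 (by omega) (by omega) (by rw [abs_of_pos hq1]; omega)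
  refine ⟨hQ0, hP0, ?_, ?_, ?_⟩
  · intro a b ha haM hbM
    obtain ⟨hA0, hA⟩ := h1.lin a b ha haM hbM
    have hbM' := abs_le.1 hbM
    have hA1 : a * q1 + b * p1 ≤ M2 := by nlinarith
    have hB1 : |b * q1 - a * p1| ≤ M2 := by
      rw [abs_le]
      constructor <;> nlinarith
    obtain ⟨hC0, hC⟩ := h2.lin (a * q1 + b * p1) (b * q1 - a * p1) (by omega) hA1 hB1
    have e : (a * q1 + b * p1) * q2 + (b * q1 - a * p1) * p2 =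
        a * (q1 * q2 - p1 * p2) + b * (p1 * q2 + q1 * p2) := by ring
    rw [e] at hC0 hC
    refine ⟨hC0, ?_⟩
    have e2 : Φ (a * (q1 * q2 - p1 * p2) + b * (p1 * q2 + q1 * p2)) *
        (Φ a * Φ (q1 * q2 - p1 * p2))⁻¹ =
        (Φ (a * q1 + b * p1) * (Φ a * Φ q1)⁻¹) *
        ((Φ (a * (q1 * q2 - p1 * p2) + b * (p1 * q2 + q1 * p2)) *
          (Φ (a * q1 + b * p1) * Φ q2)⁻¹) *
        (Φ (q1 * q2 - p1 * p2) * (Φ q1 * Φ q2)⁻¹)⁻¹) := by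
      simp only [mul_inv, inv_inv]
      generalize Φ (a * (q1 * q2 - p1 * p2) + b * (p1 * q2 + q1 * p2)) = x1
      generalize Φ (q1 * q2 - p1 * p2) = x2
      generalize Φ (a * q1 + b * p1) = x3
      have h1 : x3 * x3⁻¹ = 1 := mul_inv_cancel _
      have h2 : Φ q1 * (Φ q1)⁻¹ = 1 := mul_inv_cancel _
      have h3 : Φ q2 * (Φ q2)⁻¹ = 1 := mul_inv_cancel _
      calc x1 * ((Φ a)⁻¹ * x2⁻¹) = x1 * ((Φ a)⁻¹ * x2⁻¹) * (x3 * x3⁻¹) *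
            (Φ q1 * (Φ q1)⁻¹) * (Φ q2 * (Φ q2)⁻¹) := by rw [h1, h2, h3]; simp
        _ = _ := by
          simp only [mul_comm, mul_left_comm, mul_assoc]
    rw [e2]
    refine mem_pow_mono h1V ?_ (mem_pow_mul hA (mem_pow_mul hC (mem_pow_inv hV hQ)))
    omega
  · have e3 : Φ (p1 * q2 + q1 * p2) * (Φ (q1 * q2 - p1 * p2) * ρ1)⁻¹ =
        (Φ p1 * (Φ q1 * ρ1)⁻¹) * ((Φ (p1 * q2 + q1 * p2) * (Φ p1 * Φ q2)⁻¹) *
        (Φ (q1 * q2 - p1 * p2) * (Φ q1 * Φ q2)⁻¹)⁻¹) := by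
      simp only [mul_inv, inv_inv]
      generalize Φ (p1 * q2 + q1 * p2) = x1
      generalize Φ (q1 * q2 - p1 * p2) = x2
      have h1 : Φ p1 * (Φ p1)⁻¹ = 1 := mul_inv_cancel _
      have h2 : Φ q1 * (Φ q1)⁻¹ = 1 := mul_inv_cancel _
      have h3 : Φ q2 * (Φ q2)⁻¹ = 1 := mul_inv_cancel _
      calc x1 * (x2⁻¹ * ρ1⁻¹) = x1 * (x2⁻¹ * ρ1⁻¹) * (Φ p1 * (Φ p1)⁻¹) *
            (Φ q1 * (Φ q1)⁻¹) * (Φ q2 * (Φ q2)⁻¹) := by rw [h1, h2, h3]; simp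
        _ = _ := by
          simp only [mul_comm, mul_left_comm, mul_assoc]
    rw [e3]
    refine mem_pow_mono h1V ?_ (mem_pow_mul h1.rat (mem_pow_mul hP (mem_pow_inv hV hQ)))
    omega
  · have e4 : (q1 * q2 - p1 * p2) ^ 2 + (p1 * q2 + q1 * p2) ^ 2 =
        (q1 ^ 2 + p1 ^ 2) * (q2 ^ 2 + p2 ^ 2) := by ring
    rw [e4, hΦ _ _ (by positivity) (by positivity)]
    have e5 : Φ (q1 ^ 2 + p1 ^ 2) * Φ (q2 ^ 2 + p2 ^ 2) *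
        (Φ (q1 * q2 - p1 * p2) ^ 2 * (ν1 * ν2))⁻¹ =
        (Φ (q1 ^ 2 + p1 ^ 2) * (Φ q1 ^ 2 * ν1)⁻¹) *
        ((Φ (q2 ^ 2 + p2 ^ 2) * (Φ q2 ^ 2 * ν2)⁻¹) *
        ((Φ (q1 * q2 - p1 * p2) * (Φ q1 * Φ q2)⁻¹)⁻¹ *
        (Φ (q1 * q2 - p1 * p2) * (Φ q1 * Φ q2)⁻¹)⁻¹)) := by
      simp only [mul_inv, inv_inv, pow_two]
      generalize Φ (q1 * q2 - p1 * p2) = x2
      generalize Φ (q1 * q1 + p1 * p1) = x3
      generalize Φ (q2 * q2 + p2 * p2) = x4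
      have h2 : Φ q1 * (Φ q1)⁻¹ = 1 := mul_inv_cancel _
      have h3 : Φ q2 * (Φ q2)⁻¹ = 1 := mul_inv_cancel _
      calc x3 * x4 * (x2⁻¹ * x2⁻¹ * (ν1⁻¹ * ν2⁻¹)) =
            x3 * x4 * (x2⁻¹ * x2⁻¹ * (ν1⁻¹ * ν2⁻¹)) * (Φ q1 * (Φ q1)⁻¹) * (Φ q1 * (Φ q1)⁻¹) *
            (Φ q2 * (Φ q2)⁻¹) * (Φ q2 * (Φ q2)⁻¹) := by rw [h2, h3]; simp
        _ = _ := by
          simp only [mul_comm, mul_left_comm, mul_assoc]
    rw [e5]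
    have hQ' := mem_pow_inv hV hQ
    refine mem_pow_mono h1V ?_
      (mem_pow_mul h1.nrm (mem_pow_mul h2.nrm (mem_pow_mul hQ' hQ')))
    omega

end St

end Pool.Agent.Work.MP_0f91f8_co.H23
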